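import Pool.Agent.helper36.HK.Spec

/-!
# Row ABL: Abel summation for Dirichlet series with small summatory function
-/

set_option autoImplicit false

open Finset
open Pool.Agent.FI

namespace Pool.Agent.HK

/-- `(log x)^j x^(-s)` -/
noncomputable def ABL_f (j : ℕ) (s : ℂ) (x : ℝ) : ℂ :=
  (Real.log x : ℂ) ^ j * Complex.exp (-s * (Real.log x : ℂ))

theorem ABL_term (a : ℕ → ℂ) (j : ℕ) (s : ℂ) {n : ℕ} (hn : n ≠ 0) :
    LSeries.term (fun n : ℕ => a n * (Real.log n : ℂ) ^ j) s n = a n * ABL_f j s n := by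
  have hn' : (n : ℂ) ≠ 0 := by exact_mod_cast hn
  rw [LSeries.term_of_ne_zero hn, ABL_f, Complex.cpow_def_of_ne_zero hn', ← Complex.natCast_log,
    div_eq_mul_inv, ← Complex.exp_neg]
  have : -s * (Real.log n : ℂ) = -((Real.log n : ℂ) * s) := by ring
  rw [this]
  ring

theorem ABL_log_pow (m : ℕ) {δ x : ℝ} (hδ : 0 < δ) (hx : 1 ≤ x) :
    Real.log x ^ m ≤ (m.factorial : ℝ) * (1 / δ) ^ m * x ^ δ := by
  have h0 : 0 ≤ Real.log x := Real.log_nonneg hx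
  have h1 := Real.pow_div_factorial_le_exp (δ * Real.log x) (by positivity) m
  have h2 : Real.exp (δ * Real.log x) = x ^ δ := by
    rw [Real.rpow_def_of_pos (by linarith), mul_comm]
  rw [h2, mul_pow, div_le_iff₀ (by positivity)] at h1
  have h3 : (0 : ℝ) < δ ^ m := by positivity
  calc Real.log x ^ m = (δ ^ m * Real.log x ^ m) / δ ^ m := by field_simp
    _ ≤ (x ^ δ * (m.factorial : ℝ)) / δ ^ m := by gcongr
    _ = _ := by rw [one_div, inv_pow]; field_simp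

theorem ABL_f_deriv (j : ℕ) (s : ℂ) {x : ℝ} (hx : 0 < x) :
    HasDerivAt (ABL_f j s)
      (((j : ℂ) * (Real.log x : ℂ) ^ (j - 1) * ((x⁻¹ : ℝ) : ℂ)) *
        Complex.exp (-s * (Real.log x : ℂ)) +
        (Real.log x : ℂ) ^ j * (Complex.exp (-s * (Real.log x : ℂ)) * (-s * ((x⁻¹ : ℝ) : ℂ)))) x := by
  have h1 : HasDerivAt (fun y : ℝ => (Real.log y : ℂ)) ((x⁻¹ : ℝ) : ℂ) x :=
    (Real.hasDerivAt_log hx.ne').ofReal_comp
  exact (h1.pow j).mul ((h1.const_mul (-s)).cexp)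

theorem ABL_norm_s {s : ℂ} (h1 : 1 < s.re) (h2 : s.re ≤ 2) : ‖s‖ ≤ 2 + |s.im| := by
  refine (Complex.norm_le_abs_re_add_abs_im s).trans ?_
  rw [abs_of_pos (by linarith)]
  linarith

theorem ABL_exp {s : ℂ} (h1 : 1 < s.re) {y : ℝ} (hy1 : 1 ≤ y) :
    ‖Complex.exp (-s * (Real.log y : ℂ))‖ ≤ y⁻¹ := by
  have hlog0 : 0 ≤ Real.log y := Real.log_nonneg hy1
  rw [Complex.norm_exp]
  have : (-s * (Real.log y : ℂ)).re = -(s.re * Real.log y) := by simp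
  rw [this]
  calc Real.exp (-(s.re * Real.log y)) ≤ Real.exp (-Real.log y) := by
        apply Real.exp_le_exp.2
        nlinarith
    _ = y⁻¹ := by rw [Real.exp_neg, Real.exp_log (by linarith)]

theorem ABL_f_norm (j : ℕ) {s : ℂ} (h1 : 1 < s.re) {y : ℝ} (hy1 : 1 ≤ y) :
    ‖ABL_f j s y‖ ≤ Real.log y ^ j * y⁻¹ := by
  have hlog0 : 0 ≤ Real.log y := Real.log_nonneg hy1
  unfold ABL_f
  rw [norm_mul, norm_pow, Complex.norm_real, Real.norm_of_nonneg hlog0]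
  gcongr
  exact ABL_exp h1 hy1

theorem ABL_f_lip (j : ℕ) {s : ℂ} (h1 : 1 < s.re) (h2 : s.re ≤ 2) {a x : ℝ}
    (ha : 1 ≤ a) (hx : a ≤ x) :
    ‖ABL_f j s x - ABL_f j s a‖ ≤
      ((j : ℝ) + (2 + |s.im|)) * (1 + Real.log x) ^ j / a ^ 2 * (x - a) := by
  refine norm_image_sub_le_of_norm_deriv_le_segment' (a := a) (b := x)
    (f := ABL_f j s) (fun y hy => (ABL_f_deriv j s (by linarith [hy.1])).hasDerivWithinAt) ?_ x
    ⟨hx, le_rfl⟩
  intro y hy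
  have hy1 : 1 ≤ y := ha.trans hy.1
  have hy0 : 0 < y := by linarith
  have hlog0 : 0 ≤ Real.log y := Real.log_nonneg hy1
  have hlog : Real.log y ≤ Real.log x := Real.log_le_log hy0 hy.2.le
  have hexp := ABL_exp h1 hy1
  have hs := ABL_norm_s h1 h2
  have hj1 : Real.log y ^ (j - 1) ≤ (1 + Real.log x) ^ j := by
    calc Real.log y ^ (j - 1) ≤ (1 + Real.log x) ^ (j - 1) := by gcongr; linarith
      _ ≤ (1 + Real.log x) ^ j := pow_le_pow_right₀ (by linarith) (by omega)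
  have hj2 : Real.log y ^ j ≤ (1 + Real.log x) ^ j := by gcongr; linarith
  have hyi : ‖((y⁻¹ : ℝ) : ℂ)‖ = y⁻¹ := by
    rw [Complex.norm_real, Real.norm_of_nonneg (by positivity)]
  have hP : (0 : ℝ) ≤ (1 + Real.log x) ^ j := by
    have : 0 ≤ Real.log x := hlog0.trans hlog
    positivity
  calc _ ≤ ‖((j : ℂ) * (Real.log y : ℂ) ^ (j - 1) * ((y⁻¹ : ℝ) : ℂ)) *
        Complex.exp (-s * (Real.log y : ℂ))‖ +
        ‖(Real.log y : ℂ) ^ j * (Complex.exp (-s * (Real.log y : ℂ)) * (-s * ((y⁻¹ : ℝ) : ℂ)))‖ :=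
        norm_add_le _ _
    _ = ((j : ℝ) * Real.log y ^ (j - 1) * y⁻¹) * ‖Complex.exp (-s * (Real.log y : ℂ))‖ +
        Real.log y ^ j * (‖Complex.exp (-s * (Real.log y : ℂ))‖ * (‖s‖ * y⁻¹)) := by
        rw [norm_mul, norm_mul, norm_mul, norm_mul, norm_mul, norm_mul, norm_pow, norm_pow, hyi,
          Complex.norm_real, Real.norm_of_nonneg hlog0, Complex.norm_natCast, norm_neg]
    _ ≤ ((j : ℝ) * (1 + Real.log x) ^ j * y⁻¹) * y⁻¹ +
        (1 + Real.log x) ^ j * (y⁻¹ * ((2 + |s.im|) * y⁻¹)) := by gcongr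
    _ = ((j : ℝ) + (2 + |s.im|)) * (1 + Real.log x) ^ j / y ^ 2 := by field_simp
    _ ≤ _ := by
        have : a ^ 2 ≤ y ^ 2 := by
          have := hy.1
          gcongr
        gcongr

/-- The sum of `‖a n‖ / n`. -/
theorem ABL_harm (C₀ : ℝ) (b : ℕ → ℝ) (hb : ∀ n, 0 ≤ b n)
    (h : ∀ y : ℕ, ∑ n ∈ Ioc 0 y, b n ≤ C₀ * y) (N : ℕ) :
    ∑ n ∈ Ioc 0 N, b n * (n : ℝ)⁻¹ ≤ 2 * C₀ * (1 + Real.log N) := by
  have hC : 0 ≤ C₀ := by
    have h1 := h 1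
    have h2 : 0 ≤ ∑ n ∈ Ioc 0 1, b n := Finset.sum_nonneg fun n _ => hb n
    simpa using h2.trans h1
  have key : ∀ N : ℕ, ∑ n ∈ Ioc 0 N, b n * (n : ℝ)⁻¹ ≤
      (∑ n ∈ Ioc 0 N, b n) * (N : ℝ)⁻¹ + C₀ * ∑ k ∈ range N, (((k + 1 : ℕ) : ℝ))⁻¹ := by
    intro N
    induction N with
    | zero => simp
    | succ N ih =>
      rw [Finset.sum_Ioc_succ_top (Nat.zero_le N), Finset.sum_Ioc_succ_top (Nat.zero_le N),
        Finset.sum_range_succ]
      have h1 : (∑ n ∈ Ioc 0 N, b n) * (N : ℝ)⁻¹ ≤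
          (∑ n ∈ Ioc 0 N, b n) * (((N + 1 : ℕ) : ℝ))⁻¹ + C₀ * (((N + 1 : ℕ) : ℝ))⁻¹ := by
        rcases Nat.eq_zero_or_pos N with rfl | hN
        · simpa using hC
        · have hN' : (0 : ℝ) < N := by exact_mod_cast hN
          have h2 := h N
          have h3 : (∑ n ∈ Ioc 0 N, b n) * (N : ℝ)⁻¹ -
              (∑ n ∈ Ioc 0 N, b n) * (((N + 1 : ℕ) : ℝ))⁻¹ =
              (∑ n ∈ Ioc 0 N, b n) * ((N : ℝ)⁻¹ * (((N + 1 : ℕ) : ℝ))⁻¹) := by
            push_cast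
            field_simp
            ring
          have h4 : (∑ n ∈ Ioc 0 N, b n) * ((N : ℝ)⁻¹ * (((N + 1 : ℕ) : ℝ))⁻¹) ≤
              (C₀ * N) * ((N : ℝ)⁻¹ * (((N + 1 : ℕ) : ℝ))⁻¹) :=
            mul_le_mul_of_nonneg_right h2 (by positivity)
          have h5 : (C₀ * N) * ((N : ℝ)⁻¹ * (((N + 1 : ℕ) : ℝ))⁻¹) = C₀ * (((N + 1 : ℕ) : ℝ))⁻¹ := by
            field_simp
          linarith
      have h2 : (∑ n ∈ Ioc 0 N, b n + b (N + 1)) * (((N + 1 : ℕ) : ℝ))⁻¹ +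
          C₀ * (∑ k ∈ range N, (((k + 1 : ℕ) : ℝ))⁻¹ + (((N + 1 : ℕ) : ℝ))⁻¹) =
          (∑ n ∈ Ioc 0 N, b n) * (((N + 1 : ℕ) : ℝ))⁻¹ + C₀ * (((N + 1 : ℕ) : ℝ))⁻¹ +
          b (N + 1) * (((N + 1 : ℕ) : ℝ))⁻¹ + C₀ * ∑ k ∈ range N, (((k + 1 : ℕ) : ℝ))⁻¹ := by ring
      rw [h2]
      linarith
  have h1 := key N
  have h2 : (∑ n ∈ Ioc 0 N, b n) * (N : ℝ)⁻¹ ≤ C₀ := by
    rcases Nat.eq_zero_or_pos N with rfl | hN
    · simpa using hC
    · have hN' : (0 : ℝ) < N := by exact_mod_cast hN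
      rw [← div_eq_mul_inv, div_le_iff₀ hN']
      exact h N
  have h3 : ∑ k ∈ range N, (((k + 1 : ℕ) : ℝ))⁻¹ ≤ 1 + Real.log N := by
    have h4 := harmonic_le_one_add_log N
    have h5 : ((harmonic N : ℚ) : ℝ) = ∑ n ∈ range N, (((n + 1 : ℕ) : ℝ)⁻¹) := by
      rw [harmonic]; push_cast; rfl
    rw [h5] at h4
    exact h4
  have h4 : C₀ * ∑ k ∈ range N, (((k + 1 : ℕ) : ℝ))⁻¹ ≤ C₀ * (1 + Real.log N) :=
    mul_le_mul_of_nonneg_left h3 hC
  have h5 : 0 ≤ C₀ * Real.log N := mul_nonneg hC (Real.log_natCast_nonneg N)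
  linarith

/-- Abel summation. -/
theorem ABL_abel (a w : ℕ → ℂ) (N k : ℕ) :
    ‖∑ n ∈ Ioc N (N + k), a n * w n‖ ≤ ‖∑ n ∈ Ioc 0 (N + k), a n‖ * ‖w (N + k)‖ +
      ‖∑ n ∈ Ioc 0 N, a n‖ * ‖w N‖ +
      ∑ i ∈ range k, ‖∑ n ∈ Ioc 0 (N + i), a n‖ * ‖w (N + i + 1) - w (N + i)‖ := by
  have key : ∀ k : ℕ, ‖∑ n ∈ Ioc N (N + k), a n * w n - (∑ n ∈ Ioc 0 (N + k), a n) * w (N + k)‖ ≤
      ‖∑ n ∈ Ioc 0 N, a n‖ * ‖w N‖ +
      ∑ i ∈ range k, ‖∑ n ∈ Ioc 0 (N + i), a n‖ * ‖w (N + i + 1) - w (N + i)‖ := by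
    intro k
    induction k with
    | zero => simp
    | succ k ih =>
      rw [Finset.sum_range_succ, ← add_assoc N k 1, Finset.sum_Ioc_succ_top (by omega : N ≤ N + k),
        Finset.sum_Ioc_succ_top (Nat.zero_le (N + k))]
      have e : ∑ n ∈ Ioc N (N + k), a n * w n + a (N + k + 1) * w (N + k + 1) -
          (∑ n ∈ Ioc 0 (N + k), a n + a (N + k + 1)) * w (N + k + 1) =
          (∑ n ∈ Ioc N (N + k), a n * w n - (∑ n ∈ Ioc 0 (N + k), a n) * w (N + k)) -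
          (∑ n ∈ Ioc 0 (N + k), a n) * (w (N + k + 1) - w (N + k)) := by ring
      rw [e]
      refine (norm_sub_le _ _).trans ?_
      rw [norm_mul (∑ n ∈ Ioc 0 (N + k), a n), ← add_assoc]
      linarith
  have h1 := key k
  have h2 : ∑ n ∈ Ioc N (N + k), a n * w n =
      (∑ n ∈ Ioc N (N + k), a n * w n - (∑ n ∈ Ioc 0 (N + k), a n) * w (N + k)) +
      (∑ n ∈ Ioc 0 (N + k), a n) * w (N + k) := by ring
  rw [h2]
  refine (norm_add_le _ _).trans ?_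
  rw [norm_mul (∑ n ∈ Ioc 0 (N + k), a n) (w (N + k))]
  linarith

/-- The bound for the terms of the tail. -/
noncomputable def ABL_G (j : ℕ) (n : ℕ) : ℝ :=
  (1 + Real.log ((n : ℝ) + 1)) ^ j * (n : ℝ) ^ (-(5 / 4) : ℝ)

theorem ABL_G_le (j : ℕ) {n : ℕ} (hn : 1 ≤ n) :
    ABL_G j n ≤ ((j.factorial : ℝ) * 8 ^ j * 6 ^ (1 / 8 : ℝ)) * (n : ℝ) ^ (-(9 / 8) : ℝ) := by
  have hn' : (1 : ℝ) ≤ n := by exact_mod_cast hn
  have hn0 : (0 : ℝ) < n := by linarith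
  have he : Real.exp 1 ≤ 3 := by
    have := Real.exp_one_lt_d9
    linarith
  have he1 : (1 : ℝ) ≤ Real.exp 1 := Real.one_le_exp (by norm_num)
  have h1 : 1 + Real.log ((n : ℝ) + 1) = Real.log (Real.exp 1 * ((n : ℝ) + 1)) := by
    rw [Real.log_mul (Real.exp_pos 1).ne' (by positivity), Real.log_exp]
  have h2 : (1 : ℝ) ≤ Real.exp 1 * ((n : ℝ) + 1) := by nlinarith
  have h3 := ABL_log_pow j (δ := 1 / 8) (by norm_num) h2
  have h4 : (Real.exp 1 * ((n : ℝ) + 1)) ^ (1 / 8 : ℝ) ≤ (6 * (n : ℝ)) ^ (1 / 8 : ℝ) := by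
    apply Real.rpow_le_rpow (by positivity) ?_ (by norm_num)
    nlinarith
  rw [Real.mul_rpow (by norm_num) hn0.le] at h4
  unfold ABL_G
  rw [h1]
  have h5 : (n : ℝ) ^ (1 / 8 : ℝ) * (n : ℝ) ^ (-(5 / 4) : ℝ) = (n : ℝ) ^ (-(9 / 8) : ℝ) := by
    rw [← Real.rpow_add hn0]
    norm_num
  have h6 : (0 : ℝ) < (n : ℝ) ^ (-(5 / 4) : ℝ) := Real.rpow_pos_of_pos hn0 _
  have h7 : ((1 : ℝ) / (1 / 8)) = 8 := by norm_num
  rw [h7] at h3
  calc Real.log (Real.exp 1 * ((n : ℝ) + 1)) ^ j * (n : ℝ) ^ (-(5 / 4) : ℝ)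
      ≤ ((j.factorial : ℝ) * 8 ^ j * (6 ^ (1 / 8 : ℝ) * (n : ℝ) ^ (1 / 8 : ℝ))) *
        (n : ℝ) ^ (-(5 / 4) : ℝ) := by
        refine mul_le_mul_of_nonneg_right (h3.trans ?_) h6.le
        gcongr
    _ = (j.factorial : ℝ) * 8 ^ j * 6 ^ (1 / 8 : ℝ) *
        ((n : ℝ) ^ (1 / 8 : ℝ) * (n : ℝ) ^ (-(5 / 4) : ℝ)) := by ring
    _ = _ := by rw [h5]

theorem ABL_G_nonneg (j n : ℕ) : 0 ≤ ABL_G j n := by
  unfold ABL_G
  have h1 : (1 : ℝ) ≤ (n : ℝ) + 1 := by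
    have := Nat.cast_nonneg (α := ℝ) n
    linarith
  have h2 := Real.log_nonneg h1
  positivity

theorem ABL_G_summable (j : ℕ) : Summable (ABL_G j) := by
  have h1 : Summable fun n : ℕ =>
      ((j.factorial : ℝ) * 8 ^ j * 6 ^ (1 / 8 : ℝ)) * (n : ℝ) ^ (-(9 / 8) : ℝ) :=
    (Real.summable_nat_rpow.2 (by norm_num)).mul_left _
  refine Summable.of_nonneg_of_le (ABL_G_nonneg j) ?_ h1
  intro n
  rcases Nat.eq_zero_or_pos n with rfl | hn
  · have h2 : ((0 : ℕ) : ℝ) ^ (-(5 / 4) : ℝ) = 0 := by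
      rw [Nat.cast_zero, Real.zero_rpow (by norm_num)]
    unfold ABL_G
    rw [h2, mul_zero]
    positivity
  · exact ABL_G_le j hn

theorem ABL : ABL_stmt := by
  intro C₀ j
  set K : ℝ := (j.factorial : ℝ) * 4 ^ j with hK
  have hK0 : 0 ≤ K := by positivity
  have hG0 : 0 ≤ ∑' n, ABL_G j n := tsum_nonneg (ABL_G_nonneg j)
  refine ⟨2 * |C₀| * 4 ^ (j + 1) + (2 * K + ((j : ℝ) + 1) * ∑' n, ABL_G j n) + 1, by positivity, ?_⟩
  intro M hM a hNb s h1 h2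
  obtain ⟨hA, hS⟩ := hNb
  have hC0 : 0 ≤ C₀ := by
    have h3 := hA 1
    have h4 : 0 ≤ ∑ n ∈ Ioc 0 1, ‖a n‖ := Finset.sum_nonneg fun n _ => norm_nonneg _
    simpa using h4.trans h3
  rw [abs_of_nonneg hC0]
  set T : ℝ := 2 + |s.im| with hT
  have hT2 : 2 ≤ T := by linarith [abs_nonneg s.im]
  have hlM : 0 ≤ Real.log M := Real.log_nonneg hM
  have hlT : 0 ≤ Real.log T := Real.log_nonneg (by linarith)
  have hlf : lf M s = 1 + Real.log M + Real.log T := rfl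
  have hlf1 : 1 ≤ lf M s := by rw [hlf]; linarith
  set R : ℝ := (M * T) ^ 4 with hR
  have hMT : 1 ≤ M * T := by nlinarith
  have hR1 : 1 ≤ R := one_le_pow₀ hMT
  set N : ℕ := ⌈R⌉₊ with hN
  have hRN : R ≤ N := Nat.le_ceil R
  have hN2 : (N : ℝ) ≤ 2 * R := by
    have := (Nat.ceil_lt_add_one (by linarith : 0 ≤ R)).le
    linarith
  have hN1 : 1 ≤ N := by
    have : (1 : ℝ) ≤ N := by linarith
    exact_mod_cast this
  have hlogN : 1 + Real.log N ≤ 4 * lf M s := by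
    have h3 : Real.log N ≤ Real.log (2 * R) :=
      Real.log_le_log (by exact_mod_cast hN1) hN2
    have h4 : Real.log (2 * R) = Real.log 2 + 4 * (Real.log M + Real.log T) := by
      rw [Real.log_mul (by norm_num) (by linarith), hR, Real.log_pow,
        Real.log_mul (by linarith) (by linarith)]
      push_cast
      ring
    have h5 := Real.log_two_lt_d9
    rw [hlf]
    linarith
  have hlogN0 : 0 ≤ Real.log (N : ℝ) := Real.log_natCast_nonneg N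
  -- the root
  have hroot : ∀ n : ℕ, N ≤ n → M * T ≤ (n : ℝ) ^ (1 / 4 : ℝ) := by
    intro n hn
    have h3 : R ≤ n := hRN.trans (by exact_mod_cast hn)
    have h4 : M * T = R ^ (1 / 4 : ℝ) := by
      rw [hR, ← Real.rpow_natCast, ← Real.rpow_mul (by linarith)]
      norm_num
    rw [h4]
    exact Real.rpow_le_rpow (by linarith) h3 (by norm_num)
  -- the head
  have hhead : ‖∑ n ∈ Ioc 0 N, a n * ABL_f j s n‖ ≤ 2 * C₀ * 4 ^ (j + 1) * lf M s ^ (j + 1) := by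
    refine (norm_sum_le _ _).trans ?_
    have h3 : ∀ n ∈ Ioc 0 N, ‖a n * ABL_f j s n‖ ≤ (1 + Real.log N) ^ j * (‖a n‖ * (n : ℝ)⁻¹) := by
      intro n hn
      rw [Finset.mem_Ioc] at hn
      have hn1 : (1 : ℝ) ≤ n := by exact_mod_cast hn.1
      have h4 := ABL_f_norm j h1 hn1
      have h5 : Real.log n ≤ 1 + Real.log N := by
        have : Real.log n ≤ Real.log N := Real.log_le_log (by linarith) (by exact_mod_cast hn.2)
        linarith
      have h6 : Real.log n ^ j ≤ (1 + Real.log N) ^ j := pow_le_pow_left₀ (Real.log_nonneg hn1) h5 j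
      rw [norm_mul]
      calc ‖a n‖ * ‖ABL_f j s n‖ ≤ ‖a n‖ * ((1 + Real.log N) ^ j * (n : ℝ)⁻¹) := by
            refine mul_le_mul_of_nonneg_left (h4.trans ?_) (norm_nonneg _)
            exact mul_le_mul_of_nonneg_right h6 (by positivity)
        _ = _ := by ring
    refine (Finset.sum_le_sum h3).trans ?_
    rw [← Finset.mul_sum]
    have h4 := ABL_harm C₀ (fun n => ‖a n‖) (fun n => norm_nonneg _) hA N
    calc (1 + Real.log N) ^ j * ∑ n ∈ Ioc 0 N, ‖a n‖ * (n : ℝ)⁻¹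
        ≤ (1 + Real.log N) ^ j * (2 * C₀ * (1 + Real.log N)) := by
          refine mul_le_mul_of_nonneg_left h4 (by positivity)
      _ = 2 * C₀ * (1 + Real.log N) ^ (j + 1) := by rw [pow_succ]; ring
      _ ≤ 2 * C₀ * (4 * lf M s) ^ (j + 1) := by gcongr
      _ = _ := by rw [mul_pow]; ring
  -- the boundary terms
  have hbd : ∀ n : ℕ, N ≤ n → ‖∑ m ∈ Ioc 0 n, a m‖ * ‖ABL_f j s n‖ ≤ K := by
    intro n hn
    have hn1 : (1 : ℝ) ≤ n := by exact_mod_cast hN1.trans hn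
    have hn0 : (0 : ℝ) < n := by linarith
    have h3 := ABL_f_norm j h1 hn1
    have h4 := ABL_log_pow j (δ := 1 / 4) (by norm_num) hn1
    have h5 : M ≤ (n : ℝ) ^ (1 / 4 : ℝ) := by
      refine le_trans ?_ (hroot n hn)
      nlinarith
    have h6 : ((1 : ℝ) / (1 / 4)) = 4 := by norm_num
    rw [h6] at h4
    have h7 : 0 ≤ Real.log (n : ℝ) := Real.log_nonneg hn1
    calc ‖∑ m ∈ Ioc 0 n, a m‖ * ‖ABL_f j s n‖
        ≤ (M * √(n : ℝ)) * (Real.log n ^ j * (n : ℝ)⁻¹) := by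
          refine mul_le_mul (hS n) h3 (norm_nonneg _) (by positivity)
      _ ≤ ((n : ℝ) ^ (1 / 4 : ℝ) * √(n : ℝ)) * (((j.factorial : ℝ) * 4 ^ j * (n : ℝ) ^ (1 / 4 : ℝ)) *
          (n : ℝ)⁻¹) := by gcongr
      _ = K * (((n : ℝ) ^ (1 / 4 : ℝ) * (n : ℝ) ^ (1 / 2 : ℝ) * (n : ℝ) ^ (1 / 4 : ℝ)) *
          (n : ℝ)⁻¹) := by
          rw [Real.sqrt_eq_rpow, hK]
          ring
      _ = K := by
          rw [← Real.rpow_add hn0, ← Real.rpow_add hn0]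
          norm_num
          rw [mul_inv_cancel₀ hn0.ne', mul_one]
  -- the differences
  have hdf : ∀ n : ℕ, N ≤ n → ‖∑ m ∈ Ioc 0 n, a m‖ * ‖ABL_f j s ((n + 1 : ℕ) : ℝ) - ABL_f j s n‖ ≤
      ((j : ℝ) + 1) * ABL_G j n := by
    intro n hn
    have hn1 : (1 : ℝ) ≤ n := by exact_mod_cast hN1.trans hn
    have hn0 : (0 : ℝ) < n := by linarith
    have h3 := ABL_f_lip j h1 h2 hn1 (x := ((n + 1 : ℕ) : ℝ)) (by push_cast; linarith)
    have h4 : ((n + 1 : ℕ) : ℝ) - n = 1 := by push_cast; ring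
    rw [h4, mul_one, ← hT] at h3
    have h5 := hroot n hn
    have h6 : 0 ≤ Real.log ((n : ℝ) + 1) := Real.log_nonneg (by linarith)
    have h7 : (j : ℝ) + T ≤ ((j : ℝ) + 1) * T := by
      have := Nat.cast_nonneg (α := ℝ) j
      nlinarith
    have h8 : ((n + 1 : ℕ) : ℝ) = (n : ℝ) + 1 := by push_cast; ring
    rw [h8] at h3 ⊢
    calc ‖∑ m ∈ Ioc 0 n, a m‖ * ‖ABL_f j s ((n : ℝ) + 1) - ABL_f j s n‖
        ≤ (M * √(n : ℝ)) * (((j : ℝ) + T) * (1 + Real.log ((n : ℝ) + 1)) ^ j / (n : ℝ) ^ 2) := by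
          refine mul_le_mul (hS n) h3 (norm_nonneg _) (by positivity)
      _ ≤ (M * √(n : ℝ)) *
          ((((j : ℝ) + 1) * T) * (1 + Real.log ((n : ℝ) + 1)) ^ j / (n : ℝ) ^ 2) := by gcongr
      _ = ((j : ℝ) + 1) * (1 + Real.log ((n : ℝ) + 1)) ^ j * ((M * T) * √(n : ℝ) / (n : ℝ) ^ 2) := by
          ring
      _ ≤ ((j : ℝ) + 1) * (1 + Real.log ((n : ℝ) + 1)) ^ j *
          ((n : ℝ) ^ (1 / 4 : ℝ) * √(n : ℝ) / (n : ℝ) ^ 2) := by gcongr
      _ = ((j : ℝ) + 1) * ABL_G j n := by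
          have e : (n : ℝ) ^ (1 / 4 : ℝ) * √(n : ℝ) / (n : ℝ) ^ 2 = (n : ℝ) ^ (-(5 / 4) : ℝ) := by
            rw [Real.sqrt_eq_rpow, ← Real.rpow_add hn0, ← Real.rpow_natCast, ← Real.rpow_sub hn0]
            norm_num
          rw [e]
          unfold ABL_G
          ring
  -- partial sums
  have hpart : ∀ k : ℕ, ‖∑ n ∈ Ioc 0 (N + k), a n * ABL_f j s n‖ ≤
      2 * C₀ * 4 ^ (j + 1) * lf M s ^ (j + 1) +
        (2 * K + ((j : ℝ) + 1) * ∑' n, ABL_G j n) := by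
    intro k
    have e : ∑ n ∈ Ioc 0 (N + k), a n * ABL_f j s n =
        ∑ n ∈ Ioc 0 N, a n * ABL_f j s n + ∑ n ∈ Ioc N (N + k), a n * ABL_f j s n :=
      (Finset.sum_Ioc_consecutive (fun n : ℕ => a n * ABL_f j s n) (Nat.zero_le N)
        (Nat.le_add_right N k)).symm
    rw [e]
    refine (norm_add_le _ _).trans (add_le_add hhead ?_)
    refine (ABL_abel a (fun n => ABL_f j s n) N k).trans ?_
    have h3 := hbd (N + k) (by omega)
    have h4 := hbd N le_rfl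
    have h5 : ∑ i ∈ range k, ‖∑ n ∈ Ioc 0 (N + i), a n‖ *
        ‖ABL_f j s ((N + i + 1 : ℕ) : ℝ) - ABL_f j s ((N + i : ℕ) : ℝ)‖ ≤
        ((j : ℝ) + 1) * ∑' n, ABL_G j n := by
      refine (Finset.sum_le_sum fun i _ => hdf (N + i) (by omega)).trans ?_
      rw [← Finset.mul_sum]
      refine mul_le_mul_of_nonneg_left ?_ (by positivity)
      have h6 : ∑ i ∈ range k, ABL_G j (N + i) = ∑ n ∈ (range k).map ⟨fun i => N + i, fun x y h => by
          simpa using h⟩, ABL_G j n := by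
        rw [Finset.sum_map]
        rfl
      rw [h6]
      exact (ABL_G_summable j).sum_le_tsum _ fun n _ => ABL_G_nonneg j n
    linarith
  -- the limit
  have hfin : 2 * C₀ * 4 ^ (j + 1) * lf M s ^ (j + 1) +
        (2 * K + ((j : ℝ) + 1) * ∑' n, ABL_G j n) ≤
      (2 * C₀ * 4 ^ (j + 1) + (2 * K + ((j : ℝ) + 1) * ∑' n, ABL_G j n) + 1) * lf M s ^ (j + 1) := by
    have h3 : 1 ≤ lf M s ^ (j + 1) := one_le_pow₀ hlf1
    have h4 : 0 ≤ 2 * K + ((j : ℝ) + 1) * ∑' n, ABL_G j n := by positivity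
    nlinarith
  refine le_trans ?_ hfin
  unfold DF LSeries
  by_cases hsum : Summable (LSeries.term (fun n : ℕ => a n * (Real.log n : ℂ) ^ j) s)
  · have h3 := hsum.hasSum.tendsto_sum_nat
    have h4 := (Filter.tendsto_add_atTop_iff_nat (N + 1)).2 h3
    refine le_of_tendsto h4.norm (Filter.Eventually.of_forall fun k => ?_)
    have e : ∑ i ∈ range (k + (N + 1)), LSeries.term (fun n : ℕ => a n * (Real.log n : ℂ) ^ j) s i =
        ∑ n ∈ Ioc 0 (N + k), a n * ABL_f j s n := by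
      have e1 : k + (N + 1) = (N + k) + 1 := by ring
      rw [e1, Finset.sum_range_succ', LSeries.term_zero, add_zero]
      have e2 : Ioc 0 (N + k) = (range (N + k)).map ⟨fun i => i + 1, fun x y h => by simpa using h⟩ := by
        ext n
        simp only [Finset.mem_Ioc, Finset.mem_map, Finset.mem_range, Function.Embedding.coeFn_mk]
        constructor
        · rintro ⟨h5, h6⟩
          exact ⟨n - 1, by omega, by omega⟩
        · rintro ⟨m, h5, h6⟩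
          omega
      rw [e2, Finset.sum_map]
      refine Finset.sum_congr rfl fun i _ => ?_
      exact ABL_term a j s (Nat.succ_ne_zero i)
    rw [e]
    exact hpart k
  · rw [tsum_eq_zero_of_not_summable hsum, norm_zero]
    positivity

end Pool.Agent.HK
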